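import Pool.Agent.Y103.Hk.Main

/-!
# The Tate conjecture for all varieties built from one piece of K3 type over finite fields

Let `X` be a smooth projective variety over an algebraic closure of the field with `p` elements whose
cohomology `H^{2b}(X)` contains a piece of K3 type: a K3 surface, a hyperkähler variety of
`K3^[n]`-type (`b = 1`), a cubic fourfold or a Gushel-Mukai fourfold (`b = 2`), .... Over a large
finite field with `q` elements the eigenvalues of Frobenius on the transcendental part of `H^{2b}(X)`
are `q^b` times the conjugates of a number `α`; if the height is finite then `α` and all its powers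
generate a CM field `E` of degree `2 d`, all complex absolute values of `α` are one, and the `p`-adic
embeddings of `E` with `|α| > 1` belong to one place, of local degree `m` (`IsK3Frobenius`,
`localDegree`; `m` divides the height). We have `2 d ≤ 22` for all examples above: `d ≤ 11`.

A variety `Z` is *built from `n` copies of this piece* (`IsBuiltFrom`) if its cohomology is spanned by
the products of classes of algebraic cycles and of at most `n` images, under **arbitrary** algebraic
correspondences from `X` to `Z`, of eigenvectors of Frobenius in `H^{2b}(X)` for the conjugates of
`α`. Examples: `X` itself if its cohomology is spanned by cycles and by this piece (K3 surfaces, cubic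
fourfolds); all Hilbert schemes of points of a K3 surface and all moduli spaces of sheaves on it (the
Künneth components of the Chern classes of a universal sheaf generate the cohomology: Markman); every
variety `X` of `K3^[n]`-type with good reduction (the classes of Markman on `X × X`, algebraic by
Charles and Markman, map `H²(X)` onto generators of the cohomology algebra); the Fano varieties of
lines and the LLSvS eightfolds of cubic fourfolds; and all products of such varieties (first
conclusion).

**Theorem.** Assume one of
* `n ≤ 3` and `(d, m)` is not one of the nine pairs of `exceptionalPairs`;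
* `m` is odd (for example: the height is odd) and `(d, m)` is not one of the four pairs
  `(6, 3), (9, 3), (10, 3), (10, 5)`; here `n` is arbitrary;
* `d` is a prime number and `n < d`.

Assume also *one* of the following two statements about `X` only: the Tate conjecture for `X × X` in
codimension `2 b`; or (`SimpleLefschetz`) `H^{2b}(X)` is spanned by the classes of cycles and the
eigenvectors for the conjugates of `α`, which have multiplicity one, and `X` satisfies the Lefschetz
standard conjecture (known for varieties of `K3^[n]`-type: Charles and Markman) for some divisor. Then
for all `Z` built from `n` copies: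

* the Tate conjecture and the semisimplicity of Frobenius hold for `Z` in **all** codimensions;
* the cycle class map is injective after the extension of scalars: cycle classes which are linearly
  independent over `ℚ` are linearly independent over the coefficient field. With the first statement
  this is the full assertion of Tate for `Z`: `A^j(Z)` is finitely generated and
  `A^j(Z) ⊗ ℚ_ℓ` is the space of the Tate classes;
* for **all** smooth projective varieties `U` such that the field `L` which determines the slopes of
  `U` is independent of `E` the Tate conjecture for `Z × U` in codimension `c` is equivalent to the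
  Tate conjecture for `U` in codimension `c - i` for all `i ≤ c` with a homologically nontrivial cycle
  of codimension `i` on `Z`; and similarly with semisimplicity.

So the full Tate conjecture holds for all powers of all varieties of `K3^[n]`-type (of any dimension)
of odd height over finite fields outside the four pairs, if the Frobenius eigenvalues on the
transcendental part are simple: algebraic cycles on `X × X` are obtained from the Lefschetz standard
conjecture for `X`. For K3 surfaces the assumptions about `X` are known (Charles, Madapusi Pera, Kim
and Madapusi Pera; Ito, Ito and Koshikawa); for them the last theorem on all powers is `K3OddHeight`.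
-/

set_option autoImplicit false

open CategoryTheory AlgebraicGeometry NumberField

universe u v

namespace Pool.Agent.Results.MP_0fca13_ag.K3TypePowers

open Pool.Agent.H914 Pool.Agent.W534 Pool.Agent.W517.K3 Pool.Agent.Y138.KC Pool.Agent.Y103.Hk
  VarClass Obj WeilCohomology

/-- **The Tate conjecture for all varieties built from one piece of K3 type.** -/
theorem result {k : Type u} [Field k] {𝒱 : VarClass k} {ops : CycleOps 𝒱}
    (W : WeilCohomology.{u, v} ops) [IsAlgClosed W.K] (p : ℕ) [Fact p.Prime]
    (Φ : FrobSystem W p) (ι : AlgebraicClosure ℚ →+* PadicAlgCl p) (X : 𝒱.Obj)
    (E : Type) [Field E] [NumberField E] [IsCMField E] (a b e : ℕ) (α : E) (he : 0 < e)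
    (hα : IsK3Frobenius p a α)
    (hX : TateIn Φ (X.prod X) (2 * b) ∨ SimpleLefschetz Φ X b e α) (d : ℕ)
    (hd : Module.finrank ℚ E = 2 * d) (hd11 : d ≤ 11) :
    -- the varieties built from copies of the piece
    ((∀ (n n' : ℕ) (Y Z : 𝒱.Obj), IsBuiltFrom Φ X b e α n Y → IsBuiltFrom Φ X b e α n' Z →
        IsBuiltFrom Φ X b e α (n + n') (Y.prod Z)) ∧
      (∀ Z : 𝒱.Obj, Generates W.K (cycleClasses W Z ∪ twistImages Φ X b e α Z) →
        ∃ n, IsBuiltFrom Φ X b e α n Z) ∧
      (Spans W.K (cycleClasses W X ∪ twists Φ X b e α) → IsBuiltFrom Φ X b e α 1 X)) ∧
    -- the Tate conjecture
    ∀ (n : ℕ) (Z : 𝒱.Obj), IsBuiltFrom Φ X b e α n Z →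
      ((n ≤ 3 ∧ (d, localDegree p α) ∉ exceptionalPairs) ∨
        (Odd (localDegree p α) ∧ (d, localDegree p α) ∉ exceptionalOddPairs) ∨
        (d.Prime ∧ n < d)) →
      (∀ c, SemisimpleTateIn Φ Z c) ∧ InjectiveCycleMap W Z ∧
      ∀ L : IntermediateField ℚ (AlgebraicClosure ℚ), IsIndependentField E L →
        ∀ U : 𝒱.Obj, SlopesIn Φ ι L U → ∀ c,
        (TateIn Φ (Z.prod U) c ↔ ∀ i ≤ c, HasCycle W Z i → TateIn Φ U (c - i)) ∧
        (SemisimpleTateIn Φ (Z.prod U) c ↔
          ∀ i ≤ c, HasCycle W Z i → SemisimpleTateIn Φ U (c - i)) :=
  ⟨⟨fun _ _ _ _ h h' => built_prod h h', fun _ h => built_of_adjoin h, fun h => built_self h⟩,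
    fun _ _ hZ hgood => main hα he hd ⟨hd11, hgood⟩ hX hZ⟩

end Pool.Agent.Results.MP_0fca13_ag.K3TypePowers
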