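import Pool.Agent.Y127.C.Fin

/-!
# The Tate conjecture for products of powers of varieties with a degeneration of type III

Let `F₀` be a finitely generated field of any characteristic, `k` its algebraic closure, `Γ` the
Galois group, `W` the `ℓ`-adic cohomology of the varieties over `k` with coefficients in an algebraic
closure `K` of `ℚ_ℓ`, and `χ` the inverse of the cyclotomic character (so that the condition
`g c = χ(g)^j c` for `c ∈ H^(2j)` says that `c` is an invariant of `H^(2j)(j)`). The theorem is proved
for an abstract Weil cohomology theory with an action of a group.

Let `X_i` be varieties over `F₀` of even dimension for which numerical and homological equivalence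
coincide and whose transcendental cohomology `T_i` (the orthogonal complement of all algebraic
classes) is concentrated in the middle degree, irreducible under every open subgroup, and of rank
different from `4`. Suppose that there is ONE element `g_i ∈ Γ` which acts on `T_i` as a unipotent
operator with one Jordan block of size `3` and all others of size `1`. This holds for an element of
the inertia group at a place where `X_i` has a degeneration of type III (the most degenerate
reduction of K3 surfaces, other surfaces with `p_g = 1`, cubic fourfolds and so on), or where a
surface of any geometric genus acquires one cusp singularity. The elements `g_i` can be different,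
and there is no condition on their action on the other `X_j`. Suppose that the `T_i` are not
isomorphic to each other up to a twist, and that `g_i = g_j` if `T_i` and `T_j` both have rank `8`
(because of triality).

Let `Z` be any variety whose cohomology algebra is generated by representations `U` which are small
with respect to the `X_i`: `(g_i - 1)^2 = 0` on `U` and the rank of `g_i - 1` on `U` is small (for
instance `g_i` acts trivially on `U`), or `U` has a small dimension. Examples are varieties with good
reduction, or products of curves, abelian varieties and so on with small toric ranks, at the places
which belong to the `g_i`. Nothing else is assumed about the Galois image for `Z`.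

Let `Y = X_1^(n_1) × ... × X_r^(n_r) × Z` with arbitrary exponents, and let `L` be the set of the
indices with `n_i ≥ dim T_i` (or any larger set). Suppose that the Tate conjecture holds for `Z` over
the finite extensions of `F₀`. Let `F'` be a finite extension of `F₀` with the Galois group `Δ'`.

If `n_i < dim T_i` for all `i`, so that `L` can be empty, then every Tate class of `Y` over `F'` is a
combination of classes of cycles defined over `F'`. So the Tate conjecture holds for `Y`.

If `L` is not empty, the same follows if the discriminant characters of the `X_i`, `i ∈ L` (`det T_i`
divided by a power of `χ`; the values are `± 1`) are independent, that is no product of them is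
trivial, on the Galois group `Δ` of a finite extension of `F'` over which the algebraic classes
of `Z` and of the `X_i` are defined.

Idea: the Lie algebra of all simultaneous derivations of the equivariant multilinear maps between
the representations contains, for every element `g` of `Γ`, the logarithm of its unipotent part
(the powers of `g` depend polynomially on the exponent up to the semisimple part; no theorem on
algebraic groups is used). For `g_i` it is the operator `u ∧ w` on `T_i`, `u` isotropic, `w` not
isotropic. With one conjugate `u' ∧ w'` an explicit iterated commutator is a multiple of `u ∧ u'`,
a semisimple element with the eigenvalues `1, -1, 0, ..., 0`, and the conjugates span `so(T_i)`. Two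
different members are separated without a common element: an isomorphism between `so(T_i)` and
`so(T_j)` maps the elements with `ad^3 = ad` and the corresponding rank to each other, the other
possibility is excluded by counting the dimensions of common eigenspaces except in the dimension
`8`, and then it comes from a similitude. Goursat's lemma and a count of dimensions and ranks give an
operator which acts on one `T_i` only, so the coordinates of a Tate class on `Y` are invariants of
`so(T_i)`; the first fundamental theorem for `SO(n)`, with its determinants, is applied to classes
twisted by characters.
-/

universe u

namespace Pool.Agent.Results.MP_0fca13_ag.TypeThreeTowers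

open Pool.Agent.H914 Pool.Agent.TH125.Gal Pool.Agent.Y127 Pool.Agent.Y127.G Pool.Agent.Y127.C

/-- **The Tate conjecture for products of powers of varieties of type III with other varieties.** -/
theorem result {k : Type u} [Field k] {𝒱 : VarClass k} {ops : CycleOps 𝒱}
    {W : WeilCohomology.{u, 0} ops} [IsAlgClosed W.K] {Γ : Type} [Group Γ] {D : Chr W.K Γ}
    {ι : Type} {g : ι → Γ} {X : ι → GVar W Γ} {Z : GVar W Γ} (hX : CuspFamily D g X Z)
    {S L : Set ι} {Y : GVar W Γ} (hY : LTower X Z S L Y) (hG : GaloisType D.χ Y)
    (hZ : TateConjecture D.χ Z) (Δ' : Subgroup Γ) (hΔ' : Δ'.FiniteIndex)
    (hL : L = ∅ ∨ ∃ Δ ≤ Δ', Δ.FiniteIndex ∧ (∀ i ∈ S, AlgOver D Δ (X i)) ∧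
      AlgOver D Δ Z ∧ IndepOn Δ (fun i => disc D (X i)) L) : TateOver D.χ Δ' Y :=
  hX.final hY hG hZ hΔ' hL

end Pool.Agent.Results.MP_0fca13_ag.TypeThreeTowers
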