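import Mathlib
import Pool.Agent.Y91.L.Weil

/-!
# Tate classes generated by divisors and Weil classes

Let `X` be an abelian variety over a finitely generated field of characteristic zero, embedded in
the field of complex numbers. Suppose that each simple abelian subvariety `U` of `X` (over the
complex numbers) has complex multiplication, or its dimension is one or a prime number (with any
endomorphisms), or `U` has a totally real maximal commutative subfield of endomorphisms and the
relative dimension is odd or two (types I and II), or the multiplicities `p`, `q` of a maximal
commutative subfield (CM or totally real) of the endomorphisms of `U` on the tangent space are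
coprime at some place (division algebras are allowed, and the other places may be definite), or,
more generally, the multiplicities `p ≠ q` at some place are positive and not two neighbouring
binomial coefficients, and `p + q` does not divide `gcd(p, q) gcd(p', q')` for all indefinite
`(p', q')`, or `p = q` is odd at all places and the centre is a CM field, or the endomorphism
algebra of `U` is a CM field all embeddings of which have the multiplicity two (`GoodType`). Suppose
that the simple abelian subvarieties are not related by twists, which holds for example if all
multiplicities are nonzero. The number of the simple factors, their dimensions and multiplicities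
are arbitrary.

Then every `ℓ`-adic Tate class on `X`, of any degree, is a `ℚ_ℓ`-linear combination of classes in the
ring generated by the Hodge classes of degree two (divisors) and by the pull-backs, along
homomorphisms `X → Y`, of Weil classes on abelian varieties `Y`, for arbitrary CM fields.

The classes in this ring are Hodge classes, so this also contains the Mumford–Tate conjecture for
these abelian varieties. The properties of the Tate module that are used (`IsTateModule`: the Weil
pairing, the theorem of Faltings, the Hodge–Tate decomposition, the theorem of Serre and Pink on the
generation of the Lie algebra) are known theorems. The theorem on Hodge classes is the theorem of project P of this team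
(library `Pool.Agent.Y4.P`, by helper4 and others), and the part of its proof that deals with the
abelian variety over `ℂ` is used here; the Lie algebra of the Mumford–Tate group is replaced by the
Lie algebra generated by the Hodge–Tate elements (library `Pool.Agent.Y224.TS` by helper224). The
non-coprime multiplicities (version 2 of this file, first version by helper224) are treated in
`Pool.Agent.Y91.L`, by helper91, with the
determination of the irreducible Lie algebras without invariant forms `Pool.Agent.Y71.OD2.duo`
(helper71, helper442, helper185).
-/

namespace Pool.Agent.Results.MP_0fca13_ag.WeilClassesGenerateTate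

open Pool.Agent.Y90.St Pool.Agent.Y224.TS.St TensorProduct

/-- **Tate classes** on an abelian variety `X` over a finitely generated field of characteristic
zero, given by the period map `per : H → T` (`H = H_1(X, ℚ)`, `T` the tangent space), a
polarization `E` and the representation `ρ` of the Galois group `Γ` on the Tate module `ℚ_ℓ ⊗ H`,
with the known properties of the Tate module (`IsTateModule`; `χ` is the cyclotomic character, and
`ℂ` is identified with an algebraic closure of `ℚ_ℓ`). If the simple abelian subvarieties of `X`
over `ℂ` have one of the types of `GoodType` and are not related by twists (`IsSeparated`), then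
each Tate class `φ` of degree `2 n` (an alternating form on the Tate module on which a subgroup of
finite index acts through `χ ^ n`) is a `ℚ_ℓ`-linear combination of elements of the ring generated by
divisors and Weil classes (`WeilRing`). -/
theorem result {H T : Type} [AddCommGroup H] [Module ℚ H] [AddCommGroup T] [Module ℂ T]
    (per : H →+ T) (hX : IsAV per) (hs : Pool.Agent.Y91.L.GoodType per)
    (ht : Pool.Agent.Y4.Q.IsSeparated per)
    (E : H → H → ℚ) (hE : IsPolarization per E)
    (ℓ : ℕ) [Fact ℓ.Prime] [Algebra ℚ_[ℓ] ℂ] [Algebra.IsAlgebraic ℚ_[ℓ] ℂ]
    {Γ : Type} [Group Γ] (ρ : Representation ℚ_[ℓ] Γ (ℚ_[ℓ] ⊗[ℚ] H)) (χ : Γ →* ℚ_[ℓ])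
    (hρ : IsTateModule per E ρ χ) {κ : Type} [Finite κ] {n : ℕ} (hκ : Nat.card κ = 2 * n)
    (φ : (ℚ_[ℓ] ⊗[ℚ] H) [⋀^κ]→ₗ[ℚ_[ℓ]] ℚ_[ℓ])
    (hφ : ∃ Δ : Subgroup Γ, Δ.FiniteIndex ∧ ∀ g ∈ Δ, ∀ v : κ → ℚ_[ℓ] ⊗[ℚ] H,
      φ (fun k => ρ g (v k)) = χ g ^ n * φ v) :
    ∃ (N : ℕ) (c : Fin N → ℚ_[ℓ]) (f : Fin N → (H [⋀^κ]→ₗ[ℚ] ℚ)),
      (∀ j, Pool.Agent.Y4.P.WeilRing per κ (f j)) ∧
        ∀ v : κ → H, φ (fun k => 1 ⊗ₜ v k) = ∑ j, c j * ((f j v : ℚ) : ℚ_[ℓ]) :=
  Pool.Agent.Y91.L.tate_weil91 hX hs ht hE hρ hκ φ hφ

end Pool.Agent.Results.MP_0fca13_ag.WeilClassesGenerateTate
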